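import Pool.Agent.Helper77.K3.DefsII

/-!
# The lemma on two shifts
-/

set_option autoImplicit false

open Set Filter Topology Matrix

namespace Pool.Agent.Helper47.K3.TS

open Pool.Agent.Helper77.K3

/-- First adapted coordinate. -/
def X (p q r : ℝ) (v : E) : ℝ := v 0 + p * v 1 + q * v 2 + r

/-- Second adapted coordinate. -/
def Y (s t : ℝ) (v : E) : ℝ := v 1 + s * v 2 + t

/-- The point with given adapted coordinates. -/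
def Pt (p q r s t ξ y z : ℝ) : E := ![ξ - p * (y - s * z - t) - q * z - r, y - s * z - t, z]

lemma X_Pt (p q r s t ξ y z : ℝ) : X p q r (Pt p q r s t ξ y z) = ξ := by
  simp [X, Pt]; ring

lemma Y_Pt (p q r s t ξ y z : ℝ) : Y s t (Pt p q r s t ξ y z) = y := by
  simp [Y, Pt]; ring

lemma Pt_two (p q r s t ξ y z : ℝ) : (Pt p q r s t ξ y z) 2 = z := by
  simp [Pt]

lemma Pt_XY (p q r s t : ℝ) (v : E) : Pt p q r s t (X p q r v) (Y s t v) (v 2) = v := by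
  ext i
  fin_cases i
  · simp [Pt, X, Y]; ring
  · simp [Pt, Y]; ring
  · simp [Pt]

lemma Pt_tendsto (p q r s t : ℝ) {ξ y z : ℕ → ℝ} {ξ' y' z' : ℝ} (h1 : Tendsto ξ atTop (𝓝 ξ'))
    (h2 : Tendsto y atTop (𝓝 y')) (h3 : Tendsto z atTop (𝓝 z')) :
    Tendsto (fun n => Pt p q r s t (ξ n) (y n) (z n)) atTop (𝓝 (Pt p q r s t ξ' y' z')) := by
  have h4 : Tendsto (fun n => y n - s * z n - t) atTop (𝓝 (y' - s * z' - t)) :=
    (h2.sub (h3.const_mul s)).sub_const t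
  rw [tendsto_pi_nhds]
  intro i
  fin_cases i
  · simpa [Pt] using ((h1.sub (h4.const_mul p)).sub (h3.const_mul q)).sub_const r
  · simpa [Pt] using h4
  · simpa [Pt] using h3

/-- Adapted coordinates of an element with `lin 2 2 = 1` and `lin 0 0 > 1`. -/
lemma adapted (hc : S_coord) (g : Aff3) (hT : IsTri g) (h22 : lin g 2 2 = 1)
    (h00 : 1 < lin g 0 0) : ∃ p q r s t : ℝ, ∀ v : E,
      X p q r (g v) = lin g 0 0 * X p q r v ∧ Y s t (g v) = (lin g 0 0)⁻¹ * Y s t v ∧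
      (g v) 2 = v 2 + tr g 2 := by
  obtain ⟨h10, h20, h21, -, h11, -, hdet⟩ := hT
  have h11e : lin g 1 1 = (lin g 0 0)⁻¹ := by
    rw [h22, mul_one] at hdet
    exact eq_inv_of_mul_eq_one_right hdet
  set l := lin g 0 0 with hl
  have hl0 : l ≠ 0 := by linarith
  have hinv : l⁻¹ < 1 := inv_lt_one_of_one_lt₀ h00
  have d1 : l - l⁻¹ ≠ 0 := by linarith
  have d2 : l - 1 ≠ 0 := by linarith
  have d3 : l⁻¹ - 1 ≠ 0 := by linarith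
  obtain ⟨p, hp⟩ : ∃ p, p * (l - l⁻¹) = lin g 0 1 := ⟨_, div_mul_cancel₀ _ d1⟩
  obtain ⟨q, hq⟩ : ∃ q, q * (l - 1) = lin g 0 2 + p * lin g 1 2 := ⟨_, div_mul_cancel₀ _ d2⟩
  obtain ⟨r, hr⟩ : ∃ r, r * (l - 1) = tr g 0 + p * tr g 1 + q * tr g 2 :=
    ⟨_, div_mul_cancel₀ _ d2⟩
  obtain ⟨s, hs⟩ : ∃ s, s * (l⁻¹ - 1) = lin g 1 2 := ⟨_, div_mul_cancel₀ _ d3⟩
  obtain ⟨t, ht⟩ : ∃ t, t * (l⁻¹ - 1) = tr g 1 + s * tr g 2 := ⟨_, div_mul_cancel₀ _ d3⟩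
  refine ⟨p, q, r, s, t, fun v => ⟨?_, ?_, ?_⟩⟩
  · simp only [X, hc.1 g v, h10, h20, h21, h22, h11e, ← hl]
    linear_combination (-(v 1)) * hp - (v 2) * hq - hr
  · simp only [Y, hc.1 g v, h10, h20, h21, h22, h11e]
    linear_combination (-(v 2)) * hs - ht
  · rw [hc.1 g v, h20, h21, h22]
    ring

/-- Iterates in adapted coordinates. -/
lemma adapted_pow (g : Aff3) (l c p q r s t : ℝ)
    (h : ∀ v : E, X p q r (g v) = l * X p q r v ∧ Y s t (g v) = l⁻¹ * Y s t v ∧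
      (g v) 2 = v 2 + c) (n : ℕ) (v : E) :
    X p q r ((g ^ n) v) = l ^ n * X p q r v ∧ Y s t ((g ^ n) v) = l⁻¹ ^ n * Y s t v ∧
      ((g ^ n) v) 2 = v 2 + n * c := by
  induction n with
  | zero => simp
  | succ n ih =>
    have e : (g ^ (n + 1)) v = g ((g ^ n) v) := by
      rw [pow_succ']; rfl
    obtain ⟨a1, a2, a3⟩ := h ((g ^ n) v)
    obtain ⟨b1, b2, b3⟩ := ih
    rw [e]
    refine ⟨?_, ?_, ?_⟩
    · rw [a1, b1]; ring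
    · rw [a2, b2]; ring
    · rw [a3, b3]; push_cast; ring

/-- An element in adapted coordinates of two other elements. -/
lemma adapted_mid (hc : S_coord) (τ : Aff3) (hT : IsTri τ) (h22 : lin τ 2 2 = 1)
    (p q r s t p' q' r' s' t' : ℝ) : ∃ b c e c' e' : ℝ, ∀ v : E,
      X p q r (τ v) = lin τ 0 0 * X p' q' r' v + b * Y s' t' v + c * v 2 + e ∧
      Y s t (τ v) = lin τ 1 1 * Y s' t' v + c' * v 2 + e' ∧ (τ v) 2 = v 2 + tr τ 2 := by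
  obtain ⟨h10, h20, h21, -, -, -, -⟩ := hT
  refine ⟨lin τ 0 1 + p * lin τ 1 1 - lin τ 0 0 * p',
    lin τ 0 2 + p * lin τ 1 2 + q - lin τ 0 0 * q' -
      (lin τ 0 1 + p * lin τ 1 1 - lin τ 0 0 * p') * s',
    tr τ 0 + p * tr τ 1 + q * tr τ 2 + r - lin τ 0 0 * r' -
      (lin τ 0 1 + p * lin τ 1 1 - lin τ 0 0 * p') * t',
    lin τ 1 2 + s - lin τ 1 1 * s', tr τ 1 + s * tr τ 2 + t - lin τ 1 1 * t',
    fun v => ⟨?_, ?_, ?_⟩⟩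
  · simp only [X, Y, hc.1 τ v, h10, h20, h21, h22]
    ring
  · simp only [Y, hc.1 τ v, h10, h20, h21, h22]
    ring
  · rw [hc.1 τ v, h20, h21, h22]
    ring

lemma lin_pow_zero (hc : S_coord) (g : Aff3) (hT : IsTri g) (n : ℕ) :
    lin (g ^ n) 0 0 = lin g 0 0 ^ n ∧ lin (g ^ n) 1 0 = 0 ∧ lin (g ^ n) 2 0 = 0 := by
  obtain ⟨h10, h20, h21, -, -, -, -⟩ := hT
  induction n with
  | zero =>
    have h1 : mat (1 : Aff3) = 1 := hc.2.2.2.2.2.1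
    have h2 : ∀ i j, lin (1 : Aff3) i j = (1 : M3) i j := fun i j =>
      congrFun (congrFun h1 i) j
    rw [pow_zero]
    refine ⟨?_, ?_, ?_⟩
    · rw [h2]; simp
    · rw [h2]; simp
    · rw [h2]; simp
  | succ n ih =>
    obtain ⟨i1, i2, i3⟩ := ih
    rw [pow_succ]
    refine ⟨?_, ?_, ?_⟩
    · rw [hc.2.1, h10, h20, i1]; ring
    · rw [hc.2.1, h10, h20, i2]; ring
    · rw [hc.2.1, h10, h20, i3]; ring

theorem TS (hc : S_coord) (hP1 : S_P1) (hF2 : S_F2) (hcof : S_cof) : S_TS := by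
  intro D γ₁ γ₂ hTri hγ₁ hγ₂ h₁22 h₂22 hl₁ hl₂ hc₁ hc₂ hdense
  obtain ⟨p₁, q₁, r₁, s₁, t₁, had₁⟩ := adapted hc γ₁ (hTri γ₁ hγ₁) h₁22 hl₁
  obtain ⟨p₂, q₂, r₂, s₂, t₂, had₂⟩ := adapted hc γ₂ (hTri γ₂ hγ₂) h₂22 hl₂
  have hpow₁ := adapted_pow γ₁ _ _ p₁ q₁ r₁ s₁ t₁ had₁
  have hpow₂ := adapted_pow γ₂ _ _ p₂ q₂ r₂ s₂ t₂ had₂
  set l₁ := lin γ₁ 0 0 with hl₁def
  set l₂ := lin γ₂ 0 0 with hl₂def
  set c₁ := tr γ₁ 2 with hc₁def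
  set c₂ := tr γ₂ 2 with hc₂def
  have hl₁0 : 0 < l₁ := by linarith
  have hl₂0 : 0 < l₂ := by linarith
  have hi₁ : l₁⁻¹ < 1 := inv_lt_one_of_one_lt₀ hl₁
  have hi₂ : l₂⁻¹ < 1 := inv_lt_one_of_one_lt₀ hl₂
  have hi₁0 : 0 ≤ l₁⁻¹ := (inv_pos.mpr hl₁0).le
  have hi₂0 : 0 ≤ l₂⁻¹ := (inv_pos.mpr hl₂0).le
  -- the exponents
  set k : ℕ → ℕ := fun m => ⌊(m : ℝ) * (-c₂ / c₁)⌋₊ with hk
  have hratio : 0 < -c₂ / c₁ := div_pos (by linarith) hc₁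
  have hζmem : ∀ m : ℕ, (k m : ℝ) * c₁ + m * c₂ ∈ Icc (-c₁) 0 := by
    intro m
    have h0 : 0 ≤ (m : ℝ) * (-c₂ / c₁) := by positivity
    have h1 := Nat.floor_le h0
    have h2 := Nat.lt_floor_add_one ((m : ℝ) * (-c₂ / c₁))
    have e : (m : ℝ) * (-c₂ / c₁) * c₁ = -(m * c₂) := by field_simp
    constructor
    · have := mul_lt_mul_of_pos_right h2 hc₁
      rw [e] at this
      simp only [hk]
      nlinarith
    · have := mul_le_mul_of_nonneg_right h1 hc₁.le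
      rw [e] at this
      simp only [hk]
      linarith
  obtain ⟨ζ, -, φ, hφ, hζ⟩ := isCompact_Icc.tendsto_subseq hζmem
  have hφt : Tendsto φ atTop atTop := hφ.tendsto_atTop
  have hkt : Tendsto (fun n => k (φ n)) atTop atTop := by
    refine tendsto_nat_floor_atTop.comp ?_
    exact (tendsto_natCast_atTop_atTop.comp hφt).atTop_mul_const hratio
  -- planes meet the domain
  obtain ⟨P, hP, hPX⟩ := hF2 D ![1, p₂, q₂] (-r₂) (by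
    intro h; have := congrFun h 0; simp at this)
  obtain ⟨Q, hQ, hQY⟩ := hF2 D ![0, 1, s₁] (-t₁) (by
    intro h; have := congrFun h 1; simp at this)
  have hPX' : X p₂ q₂ r₂ P = 0 := by
    simp at hPX
    simp only [X]; linarith
  have hQY' : Y s₁ t₁ Q = 0 := by
    simp at hQY
    simp only [Y]; linarith
  have hPeq : Pt p₂ q₂ r₂ s₂ t₂ 0 (Y s₂ t₂ P) (P 2) = P := by
    rw [← hPX']; exact Pt_XY _ _ _ _ _ _
  have hQeq : Pt p₁ q₁ r₁ s₁ t₁ (X p₁ q₁ r₁ Q) 0 (Q 2) = Q := by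
    rw [← hQY']; exact Pt_XY _ _ _ _ _ _
  -- the points near `P`
  have hcont : Continuous fun z => Pt p₂ q₂ r₂ s₂ t₂ 0 (Y s₂ t₂ P) z := by
    refine continuous_pi fun i => ?_
    fin_cases i
    · simp only [Pt, Fin.zero_eta, cons_val_zero]; fun_prop
    · simp only [Pt, Fin.mk_one, cons_val_one]; fun_prop
    · simp only [Pt, Fin.reduceFinMk, cons_val]; fun_prop
  have hopen : IsOpen ((fun z => Pt p₂ q₂ r₂ s₂ t₂ 0 (Y s₂ t₂ P) z) ⁻¹' D.Ω) :=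
    D.isOpen.preimage hcont
  obtain ⟨η, hη, hball⟩ := Metric.isOpen_iff.mp hopen (P 2) (by
    show Pt p₂ q₂ r₂ s₂ t₂ 0 (Y s₂ t₂ P) (P 2) ∈ D.Ω
    rw [hPeq]; exact hP)
  obtain ⟨τ, hτ, hτ22, hτ1, hτ2⟩ := hdense (Q 2 - ζ - P 2 - η) (Q 2 - ζ - P 2 + η) (by linarith)
  set z' : ℝ := Q 2 - ζ - tr τ 2 with hz'
  have hz'Ω : Pt p₂ q₂ r₂ s₂ t₂ 0 (Y s₂ t₂ P) z' ∈ D.Ω := by
    have h1 : z' ∈ Metric.ball (P 2) η := by
      rw [Metric.mem_ball, Real.dist_eq, abs_lt]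
      constructor <;> linarith
    exact hball h1
  obtain ⟨b, c, e, c', e', hmid⟩ :=
    adapted_mid hc τ (hTri τ hτ) hτ22 p₁ q₁ r₁ s₁ t₁ p₂ q₂ r₂ s₂ t₂
  have hA : 0 < lin τ 0 0 := (hTri τ hτ).2.2.2.1
  set A := lin τ 0 0 with hAdef
  set A' := lin τ 1 1 with hA'def
  set x' := X p₁ q₁ r₁ Q with hx'
  set y := Y s₂ t₂ P with hy
  -- the sequences
  set ξ : ℕ → ℝ := fun n => l₂⁻¹ ^ φ n * (A⁻¹ * (l₁⁻¹ ^ k (φ n) * x' -
    b * (l₂⁻¹ ^ φ n * y) - c * (z' + φ n * c₂) - e)) with hξ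
  set δ : ℕ → Aff3 := fun n => γ₁ ^ k (φ n) * τ * γ₂ ^ φ n with hδ
  set S : ℕ → E := fun n => Pt p₂ q₂ r₂ s₂ t₂ (ξ n) y z' with hS
  have hδΓ : ∀ n, δ n ∈ D.Γ := fun n =>
    D.Γ.mul_mem (D.Γ.mul_mem (D.Γ.pow_mem hγ₁ _) hτ) (D.Γ.pow_mem hγ₂ _)
  have hpw₁ : Tendsto (fun n => l₁⁻¹ ^ k (φ n)) atTop (𝓝 0) :=
    (tendsto_pow_atTop_nhds_zero_of_lt_one hi₁0 hi₁).comp hkt
  have hpw₂ : Tendsto (fun n => l₂⁻¹ ^ φ n) atTop (𝓝 0) :=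
    (tendsto_pow_atTop_nhds_zero_of_lt_one hi₂0 hi₂).comp hφt
  have hpwn₁ : Tendsto (fun n => (k (φ n) : ℝ) * l₁⁻¹ ^ k (φ n)) atTop (𝓝 0) :=
    (tendsto_self_mul_const_pow_of_lt_one hi₁0 hi₁).comp hkt
  have hpwn₂ : Tendsto (fun n => (φ n : ℝ) * l₂⁻¹ ^ φ n) atTop (𝓝 0) :=
    (tendsto_self_mul_const_pow_of_lt_one hi₂0 hi₂).comp hφt
  have hξlim : Tendsto ξ atTop (𝓝 0) := by
    have h1 : Tendsto (fun n => A⁻¹ * (l₂⁻¹ ^ φ n * (l₁⁻¹ ^ k (φ n)) * x' -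
        b * y * (l₂⁻¹ ^ φ n * l₂⁻¹ ^ φ n) - (c * z' + e) * l₂⁻¹ ^ φ n -
        c * c₂ * ((φ n : ℝ) * l₂⁻¹ ^ φ n))) atTop
        (𝓝 (A⁻¹ * (0 * 0 * x' - b * y * (0 * 0) - (c * z' + e) * 0 - c * c₂ * 0))) := by
      refine Tendsto.const_mul _ (((((hpw₂.mul hpw₁).mul_const x').sub
        ((hpw₂.mul hpw₂).const_mul (b * y))).sub (hpw₂.const_mul _)).sub (hpwn₂.const_mul _))
    have h2 : ξ = fun n => A⁻¹ * (l₂⁻¹ ^ φ n * (l₁⁻¹ ^ k (φ n)) * x' -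
        b * y * (l₂⁻¹ ^ φ n * l₂⁻¹ ^ φ n) - (c * z' + e) * l₂⁻¹ ^ φ n -
        c * c₂ * ((φ n : ℝ) * l₂⁻¹ ^ φ n)) := by
      funext n
      simp only [hξ]
      ring
    rw [h2]
    simpa using h1
  have hSlim : Tendsto S atTop (𝓝 (Pt p₂ q₂ r₂ s₂ t₂ 0 y z')) :=
    Pt_tendsto _ _ _ _ _ hξlim tendsto_const_nhds tendsto_const_nhds
  -- the end points
  have hend : ∀ n, X p₁ q₁ r₁ (δ n (S n)) = x' ∧
      Y s₁ t₁ (δ n (S n)) = l₁⁻¹ ^ k (φ n) * (A' * (l₂⁻¹ ^ φ n * y) + c' * (z' + φ n * c₂) + e') ∧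
      (δ n (S n)) 2 = z' + φ n * c₂ + tr τ 2 + k (φ n) * c₁ := by
    intro n
    have e0 : δ n (S n) = (γ₁ ^ k (φ n)) (τ ((γ₂ ^ φ n) (S n))) := rfl
    obtain ⟨a1, a2, a3⟩ := hpow₂ (φ n) (S n)
    obtain ⟨b1, b2, b3⟩ := hmid ((γ₂ ^ φ n) (S n))
    obtain ⟨d1, d2, d3⟩ := hpow₁ (k (φ n)) (τ ((γ₂ ^ φ n) (S n)))
    have f1 : X p₂ q₂ r₂ (S n) = ξ n := X_Pt _ _ _ _ _ _ _ _
    have f2 : Y s₂ t₂ (S n) = y := Y_Pt _ _ _ _ _ _ _ _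
    have f3 : (S n) 2 = z' := Pt_two _ _ _ _ _ _ _ _
    rw [e0]
    have hl₁n : l₁ ^ k (φ n) * l₁⁻¹ ^ k (φ n) = 1 := by
      rw [← mul_pow, mul_inv_cancel₀ hl₁0.ne', one_pow]
    have hl₂n : l₂ ^ φ n * l₂⁻¹ ^ φ n = 1 := by
      rw [← mul_pow, mul_inv_cancel₀ hl₂0.ne', one_pow]
    have hAA : A * A⁻¹ = 1 := mul_inv_cancel₀ hA.ne'
    refine ⟨?_, ?_, ?_⟩
    · rw [d1, b1, a1, a2, a3, f1, f2, f3]
      simp only [hξ]
      have h3 : A * (l₂ ^ φ n * (l₂⁻¹ ^ φ n * (A⁻¹ * (l₁⁻¹ ^ k (φ n) * x' -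
          b * (l₂⁻¹ ^ φ n * y) - c * (z' + φ n * c₂) - e)))) =
          (A * A⁻¹) * (l₂ ^ φ n * l₂⁻¹ ^ φ n) * (l₁⁻¹ ^ k (φ n) * x' -
          b * (l₂⁻¹ ^ φ n * y) - c * (z' + φ n * c₂) - e) := by ring
      rw [h3, hAA, hl₂n]
      linear_combination x' * hl₁n
    · rw [d2, b2, a2, a3, f2, f3]
    · rw [d3, b3, a3, f3]
  have hendlim : Tendsto (fun n => δ n (S n)) atTop (𝓝 Q) := by
    have h1 : ∀ n, δ n (S n) = Pt p₁ q₁ r₁ s₁ t₁ x'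
        (l₁⁻¹ ^ k (φ n) * (A' * (l₂⁻¹ ^ φ n * y) + c' * (z' + φ n * c₂) + e'))
        (z' + φ n * c₂ + tr τ 2 + k (φ n) * c₁) := by
      intro n
      obtain ⟨a1, a2, a3⟩ := hend n
      conv_lhs => rw [← Pt_XY p₁ q₁ r₁ s₁ t₁ (δ n (S n))]
      rw [a1, a2, a3]
    simp only [h1]
    rw [← hQeq]
    refine Pt_tendsto _ _ _ _ _ tendsto_const_nhds ?_ ?_
    · have h2 : Tendsto (fun n => A' * y * (l₁⁻¹ ^ k (φ n) * l₂⁻¹ ^ φ n) +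
          (c' * z' + e') * l₁⁻¹ ^ k (φ n) +
          c' * (l₁⁻¹ ^ k (φ n) * (k (φ n) * c₁ + φ n * c₂)) -
          c' * c₁ * ((k (φ n) : ℝ) * l₁⁻¹ ^ k (φ n))) atTop
          (𝓝 (A' * y * (0 * 0) + (c' * z' + e') * 0 + c' * (0 * ζ) - c' * c₁ * 0)) :=
        (((((hpw₁.mul hpw₂).const_mul _).add (hpw₁.const_mul _)).add
          ((hpw₁.mul hζ).const_mul _))).sub (hpwn₁.const_mul _)
      have h3 : (fun n => l₁⁻¹ ^ k (φ n) * (A' * (l₂⁻¹ ^ φ n * y) + c' * (z' + φ n * c₂) + e')) =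
          fun n => A' * y * (l₁⁻¹ ^ k (φ n) * l₂⁻¹ ^ φ n) +
          (c' * z' + e') * l₁⁻¹ ^ k (φ n) +
          c' * (l₁⁻¹ ^ k (φ n) * (k (φ n) * c₁ + φ n * c₂)) -
          c' * c₁ * ((k (φ n) : ℝ) * l₁⁻¹ ^ k (φ n)) := by
        funext n; ring
      rw [h3]
      simpa using h2
    · have h2 : Tendsto (fun n => z' + tr τ 2 + ((k (φ n) : ℝ) * c₁ + φ n * c₂)) atTop
          (𝓝 (z' + tr τ 2 + ζ)) := hζ.const_add _
      have h3 : (fun n => z' + φ n * c₂ + tr τ 2 + k (φ n) * c₁) =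
          fun n => z' + tr τ 2 + ((k (φ n) : ℝ) * c₁ + φ n * c₂) := by
        funext n; ring
      rw [h3]
      have h4 : z' + tr τ 2 + ζ = Q 2 := by rw [hz']; ring
      rw [← h4]
      exact h2
  -- divergence
  have hδinf : Tendsto δ atTop cofinite := by
    refine hcof.1 δ ⟨0, 0, ?_⟩
    have h1 : ∀ n, lin (δ n) 0 0 = l₁ ^ k (φ n) * A * l₂ ^ φ n := by
      intro n
      obtain ⟨a1, a2, a3⟩ := lin_pow_zero hc γ₁ (hTri γ₁ hγ₁) (k (φ n))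
      obtain ⟨b1, b2, b3⟩ := lin_pow_zero hc γ₂ (hTri γ₂ hγ₂) (φ n)
      obtain ⟨h10, h20, -, -, -, -, -⟩ := hTri τ hτ
      simp only [hδ]
      rw [hc.2.1, b1, b2, b3, hc.2.1, a1, h10, h20]
      ring
    have h2 : (fun n => |lin (δ n) 0 0|) = fun n => l₁ ^ k (φ n) * A * l₂ ^ φ n := by
      funext n
      rw [h1, abs_of_pos]
      positivity
    rw [h2]
    refine Tendsto.atTop_mul_atTop₀ (Tendsto.atTop_mul_const hA ?_) ?_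
    · exact (tendsto_pow_atTop_atTop_of_one_lt hl₁).comp hkt
    · exact (tendsto_pow_atTop_atTop_of_one_lt hl₂).comp hφt
  rcases hP1 D δ S _ _ hδΓ hδinf hSlim hendlim with h | h
  · exact h hz'Ω
  · exact h hQ

end Pool.Agent.Helper47.K3.TS
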