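import Pool.Agent.Helper77.K3.DefsII

/-!
# Subgroups of the plane
-/

set_option autoImplicit false

open Set Filter Topology Matrix

namespace Pool.Agent.Helper47.K3.planesub

open Pool.Agent.Helper77.K3

/-! ## Nondiscrete subgroups -/

theorem nondisc : S_nondisc := by
  intro T hT
  choose t ht ht0 htn using fun n : ℕ => hT (1 / ((n : ℝ) + 1)) (by positivity)
  have hnpos : ∀ n, 0 < ‖t n‖ := fun n => norm_pos_iff.mpr (ht0 n)
  have htlim : Tendsto (fun n => ‖t n‖) atTop (𝓝 0) :=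
    squeeze_zero (fun n => norm_nonneg _) (fun n => (htn n).le)
      tendsto_one_div_add_atTop_nhds_zero_nat
  have hmem : ∀ n, (‖t n‖)⁻¹ • t n ∈ Metric.sphere (0 : Fin 2 → ℝ) 1 := by
    intro n
    rw [mem_sphere_zero_iff_norm, norm_smul, norm_inv, norm_norm]
    exact inv_mul_cancel₀ (hnpos n).ne'
  obtain ⟨w, hw, k, hk, hlim⟩ :=
    (isCompact_sphere (0 : Fin 2 → ℝ) 1).tendsto_subseq hmem
  refine ⟨w, ?_, ?_⟩
  · intro h0
    rw [h0] at hw
    simp at hw
  · intro r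
    refine mem_closure_of_tendsto
      (f := fun n => (⌊r / ‖t (k n)‖⌋ : ℤ) • t (k n)) (b := atTop) ?_
      (Eventually.of_forall fun n => T.zsmul_mem (ht _) _)
    have h1 : Tendsto (fun n => r • ((‖t (k n)‖)⁻¹ • t (k n))) atTop (𝓝 (r • w)) :=
      hlim.const_smul r
    have h2 : Tendsto (fun n => (⌊r / ‖t (k n)‖⌋ : ℤ) • t (k n) -
        r • ((‖t (k n)‖)⁻¹ • t (k n))) atTop (𝓝 0) := by
      refine squeeze_zero_norm (a := fun n => ‖t (k n)‖) ?_ (htlim.comp hk.tendsto_atTop)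
      intro n
      have e1 : (⌊r / ‖t (k n)‖⌋ : ℤ) • t (k n) - r • ((‖t (k n)‖)⁻¹ • t (k n)) =
          ((⌊r / ‖t (k n)‖⌋ : ℝ) - r / ‖t (k n)‖) • t (k n) := by
        rw [sub_smul, smul_smul, Int.cast_smul_eq_zsmul, div_eq_mul_inv]
      rw [e1, norm_smul]
      have h3 : ‖(⌊r / ‖t (k n)‖⌋ : ℝ) - r / ‖t (k n)‖‖ ≤ 1 := by
        rw [Real.norm_eq_abs, abs_le]
        have := Int.floor_le (r / ‖t (k n)‖)
        have := Int.sub_one_lt_floor (r / ‖t (k n)‖)
        constructor <;> linarith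
      calc _ ≤ 1 * ‖t (k n)‖ := by gcongr
        _ = _ := one_mul _
    have h3 := h2.add h1
    simpa using h3

/-! ## Lattices -/

/-- A `T`-element on an axis is zero. -/
lemma axis (T : AddSubgroup (Fin 2 → ℝ)) (χ : ℝ) (hχ : 1 < χ)
    (hd : ∃ ε > 0, ∀ t ∈ T, ‖t‖ < ε → t = 0)
    (hinv : ∀ t : Fin 2 → ℝ, t ∈ T ↔ ![χ⁻¹ * t 0, χ * t 1] ∈ T) (t : Fin 2 → ℝ) (ht : t ∈ T)
    (h0 : t ≠ 0) : t 0 ≠ 0 ∧ t 1 ≠ 0 := by
  obtain ⟨ε, hε, hd⟩ := hd
  have hχ0 : 0 < χ := by linarith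
  have hinvlt : χ⁻¹ < 1 := inv_lt_one_of_one_lt₀ hχ
  have hinvpos : 0 < χ⁻¹ := inv_pos.mpr hχ0
  -- forward powers
  have hf : ∀ n : ℕ, (![χ⁻¹ ^ n * t 0, χ ^ n * t 1] : Fin 2 → ℝ) ∈ T := by
    intro n
    induction n with
    | zero =>
      have : (![χ⁻¹ ^ 0 * t 0, χ ^ 0 * t 1] : Fin 2 → ℝ) = t := by
        ext i; fin_cases i <;> simp
      rw [this]; exact ht
    | succ n ih =>
      have := (hinv _).mp ih
      have e : (![χ⁻¹ ^ (n + 1) * t 0, χ ^ (n + 1) * t 1] : Fin 2 → ℝ) =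
          ![χ⁻¹ * (![χ⁻¹ ^ n * t 0, χ ^ n * t 1] : Fin 2 → ℝ) 0,
            χ * (![χ⁻¹ ^ n * t 0, χ ^ n * t 1] : Fin 2 → ℝ) 1] := by
        ext i; fin_cases i <;> simp <;> ring
      rw [e]; exact this
  have hb : ∀ n : ℕ, (![χ ^ n * t 0, χ⁻¹ ^ n * t 1] : Fin 2 → ℝ) ∈ T := by
    intro n
    induction n with
    | zero =>
      have : (![χ ^ 0 * t 0, χ⁻¹ ^ 0 * t 1] : Fin 2 → ℝ) = t := by
        ext i; fin_cases i <;> simp
      rw [this]; exact ht
    | succ n ih =>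
      refine (hinv _).mpr ?_
      have e : (![χ⁻¹ * (![χ ^ (n + 1) * t 0, χ⁻¹ ^ (n + 1) * t 1] : Fin 2 → ℝ) 0,
            χ * (![χ ^ (n + 1) * t 0, χ⁻¹ ^ (n + 1) * t 1] : Fin 2 → ℝ) 1] : Fin 2 → ℝ) =
            ![χ ^ n * t 0, χ⁻¹ ^ n * t 1] := by
        ext i; fin_cases i <;> simp [pow_succ] <;> field_simp
      rw [e]; exact ih
  have hlim : ∀ a : ℝ, Tendsto (fun n : ℕ => |χ⁻¹ ^ n * a|) atTop (𝓝 0) := by
    intro a
    have := ((tendsto_pow_atTop_nhds_zero_of_lt_one hinvpos.le hinvlt).mul_const a).abs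
    simpa using this
  constructor
  · intro h00
    obtain ⟨n, hn⟩ := ((hlim (t 1)).eventually_lt_const hε).exists
    have h1 := hd _ (hb n) (by
      rw [pi_norm_lt_iff hε]
      intro i; fin_cases i
      · simp [h00, hε]
      · simpa using hn)
    have h2 := congrFun h1 1
    simp only [cons_val_one, cons_val_fin_one, Pi.zero_apply, mul_eq_zero, pow_eq_zero_iff',
      hinvpos.ne', false_and, false_or] at h2
    exact h0 (by ext i; fin_cases i <;> simp [h00, h2])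
  · intro h11
    obtain ⟨n, hn⟩ := ((hlim (t 0)).eventually_lt_const hε).exists
    have h1 := hd _ (hf n) (by
      rw [pi_norm_lt_iff hε]
      intro i; fin_cases i
      · simpa using hn
      · simp [h11, hε])
    have h2 := congrFun h1 0
    simp only [cons_val_zero, Pi.zero_apply, mul_eq_zero, pow_eq_zero_iff',
      hinvpos.ne', false_and, false_or] at h2
    exact h0 (by ext i; fin_cases i <;> simp [h11, h2])

theorem lat2 : S_lat2 := by
  intro T χ hχ hd hinv hT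
  have hax := axis T χ hχ hd hinv
  obtain ⟨t, ht, ht0⟩ : ∃ t ∈ T, t ≠ 0 := by
    by_contra hc
    push Not at hc
    exact hT ((AddSubgroup.eq_bot_iff_forall T).mpr hc)
  have hχ0 : 0 < χ := by linarith
  set L : Submodule ℤ (Fin 2 → ℝ) := AddSubgroup.toIntSubmodule T with hL
  have hmem : ∀ x, x ∈ L ↔ x ∈ T := fun x => Iff.rfl
  have hdisc : DiscreteTopology L := by
    obtain ⟨ε, hε, hd⟩ := hd
    rw [discreteTopology_iff_isOpen_singleton_zero, Metric.isOpen_iff]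
    intro x hx
    rw [mem_singleton_iff] at hx
    subst hx
    refine ⟨ε, hε, ?_⟩
    intro y hy
    rw [mem_singleton_iff]
    have h1 : ‖(y : Fin 2 → ℝ)‖ < ε := by
      have := mem_ball_zero_iff.mp hy
      simpa using this
    exact Subtype.ext (hd _ y.2 h1)
  -- two independent vectors
  set t' : Fin 2 → ℝ := ![χ⁻¹ * t 0, χ * t 1] with ht'
  have ht'T : t' ∈ T := (hinv t).mp ht
  have hne := hax t ht ht0
  have hdet : t 0 * t' 1 - t 1 * t' 0 ≠ 0 := by
    have : t 0 * t' 1 - t 1 * t' 0 = t 0 * t 1 * (χ - χ⁻¹) := by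
      simp [ht']; ring
    rw [this]
    refine mul_ne_zero (mul_ne_zero hne.1 hne.2) ?_
    have : χ⁻¹ < 1 := inv_lt_one_of_one_lt₀ hχ
    linarith
  have hspan : Submodule.span ℝ (L : Set (Fin 2 → ℝ)) = ⊤ := by
    rw [eq_top_iff]
    intro x _
    have hx : x = ((x 0 * t' 1 - x 1 * t' 0) / (t 0 * t' 1 - t 1 * t' 0)) • t +
        ((t 0 * x 1 - t 1 * x 0) / (t 0 * t' 1 - t 1 * t' 0)) • t' := by
      ext i
      fin_cases i
      · simp only [Fin.zero_eta, Pi.add_apply, Pi.smul_apply, smul_eq_mul]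
        rw [div_mul_eq_mul_div, div_mul_eq_mul_div, ← add_div, eq_div_iff hdet]
        ring
      · simp only [Fin.mk_one, Pi.add_apply, Pi.smul_apply, smul_eq_mul]
        rw [div_mul_eq_mul_div, div_mul_eq_mul_div, ← add_div, eq_div_iff hdet]
        ring
    rw [hx]
    exact Submodule.add_mem _
      (Submodule.smul_mem _ _ (Submodule.subset_span ht))
      (Submodule.smul_mem _ _ (Submodule.subset_span ht'T))
  have hZ : IsZLattice ℝ L := ⟨hspan⟩
  have hrank : Module.finrank ℤ L = 2 := by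
    rw [ZLattice.rank ℝ L]; simp
  have : Module.Free ℤ L := ZLattice.module_free ℝ L
  have : Module.Finite ℤ L := ZLattice.module_finite ℝ L
  let b : Module.Basis (Fin 2) ℤ L := Module.finBasisOfFinrankEq ℤ L hrank
  refine ⟨b 0, (b 0).2, b 1, (b 1).2, ?_, ?_, hax⟩
  · -- independence over the reals
    intro h0
    set B := b.ofZLatticeBasis ℝ L with hB
    have hli := B.linearIndependent
    have hB0 : B 0 = (b 0 : Fin 2 → ℝ) := b.ofZLatticeBasis_apply ℝ L 0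
    have hB1 : B 1 = (b 1 : Fin 2 → ℝ) := b.ofZLatticeBasis_apply ℝ L 1
    have hne0 : (b 0 : Fin 2 → ℝ) ≠ 0 := by
      rw [← hB0]; exact B.ne_zero 0
    have h0' := hax _ (b 0).2 hne0
    rw [Fintype.linearIndependent_iff] at hli
    have := hli ![(b 1 : Fin 2 → ℝ) 0, -(b 0 : Fin 2 → ℝ) 0] (by
      rw [Fin.sum_univ_two, hB0, hB1]
      ext i; fin_cases i
      · simp; ring
      · simp; linarith) 1
    simp at this
    exact h0'.1 this
  · intro x hx
    have h1 := b.sum_repr ⟨x, hx⟩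
    rw [Fin.sum_univ_two] at h1
    refine ⟨b.repr ⟨x, hx⟩ 0, b.repr ⟨x, hx⟩ 1, ?_⟩
    have h2 := congrArg Subtype.val h1
    simpa using h2.symm

/-! ## Cyclic groups -/

theorem cyc : S_cyc := by
  intro X w₁ w₂ hΔ hpos hlat
  -- integral traces
  have htr : ∀ χ ∈ X, ∃ k : ℤ, (χ : ℝ)⁻¹ + χ = k := by
    intro χ hχ
    obtain ⟨a, b, c, d, h1, h2⟩ := hlat χ hχ
    have e0 := congrFun h1 0
    have e1 := congrFun h1 1
    have f0 := congrFun h2 0
    have f1 := congrFun h2 1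
    simp at e0 e1 f0 f1
    refine ⟨a + d, ?_⟩
    push_cast
    have key : ((χ : ℝ)⁻¹ + χ - (a + d)) * (w₁ 0 * w₂ 1 - w₁ 1 * w₂ 0) = 0 := by
      linear_combination (w₂ 1) * e0 - (w₂ 0) * e1 - (w₁ 1) * f0 + (w₁ 0) * f1
    have := (mul_eq_zero.mp key).resolve_right hΔ
    linarith
  -- the group of logarithms
  let S : AddSubgroup ℝ :=
    { carrier := {r | ∃ χ ∈ X, Real.log χ = r}
      zero_mem' := ⟨1, X.one_mem, by simp⟩
      add_mem' := by
        rintro a b ⟨χ, hχ, rfl⟩ ⟨χ', hχ', rfl⟩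
        refine ⟨χ * χ', X.mul_mem hχ hχ', ?_⟩
        rw [Units.val_mul, Real.log_mul (Units.ne_zero _) (Units.ne_zero _)]
      neg_mem' := by
        rintro a ⟨χ, hχ, rfl⟩
        refine ⟨χ⁻¹, X.inv_mem hχ, ?_⟩
        rw [Units.val_inv_eq_inv_val, Real.log_inv] }
  rcases AddSubgroup.dense_or_cyclic S with hdense | ⟨r, hr⟩
  · exfalso
    obtain ⟨s, ⟨χ, hχ, hs⟩, hs1, hs2⟩ := hdense.exists_between
      (show (0 : ℝ) < Real.log 2 from Real.log_pos (by norm_num))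
    have hχpos := hpos χ hχ
    have h1 : 1 < (χ : ℝ) := by
      rw [← hs] at hs1
      exact (Real.log_pos_iff hχpos.le).mp hs1
    have h2 : (χ : ℝ) < 2 := by
      rw [← hs] at hs2
      exact (Real.log_lt_log_iff hχpos (by norm_num)).mp hs2
    obtain ⟨k, hk⟩ := htr χ hχ
    have h3 : (2 : ℝ) < (k : ℝ) := by
      rw [← hk]
      have : (χ : ℝ)⁻¹ + χ - 2 = ((χ : ℝ) - 1) ^ 2 / χ := by
        field_simp; ring
      have h4 : 0 < ((χ : ℝ) - 1) ^ 2 / χ := by
        have : 0 < (χ : ℝ) - 1 := by linarith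
        positivity
      linarith
    have h4 : (k : ℝ) < 3 := by
      rw [← hk]
      have : (χ : ℝ)⁻¹ < 1 := inv_lt_one_of_one_lt₀ h1
      linarith
    have h5 : (2 : ℤ) < k := by exact_mod_cast h3
    have h6 : k < (3 : ℤ) := by exact_mod_cast h4
    omega
  · have hrS : r ∈ S := by
      rw [hr]; exact AddSubgroup.subset_closure rfl
    obtain ⟨χ₀, hχ₀, hχr⟩ := hrS
    refine ⟨χ₀, hχ₀, ?_⟩
    intro χ hχ
    have h1 : Real.log χ ∈ S := ⟨χ, hχ, rfl⟩
    rw [hr, AddSubgroup.mem_closure_singleton] at h1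
    obtain ⟨n, hn⟩ := h1
    refine ⟨n, ?_⟩
    apply Units.ext
    rw [Units.val_zpow_eq_zpow_val]
    have h2 : Real.log χ = Real.log ((χ₀ : ℝ) ^ n) := by
      rw [Real.log_zpow, hχr, ← hn]; simp
    exact Real.log_injOn_pos (hpos χ hχ) (zpow_pos (hpos χ₀ hχ₀) n) h2

end Pool.Agent.Helper47.K3.planesub
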