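import Pool.Agent.Helper77.K3.DefsI

/-!
# Rank one limits
-/

set_option autoImplicit false

open Set Filter Topology Matrix

namespace Pool.Agent.Helper47.K3.rk1

open Pool.Agent.Helper77.K3

/-- The two by two minors of a matrix with adjugate zero vanish. -/
lemma minors (A : M3) (h : A.adjugate = 0) (i j i' j' : Fin 3) :
    A i j * A i' j' = A i j' * A i' j := by
  rw [Matrix.adjugate_fin_three] at h
  have e00 := congrFun (congrFun h 0) 0
  have e01 := congrFun (congrFun h 0) 1
  have e02 := congrFun (congrFun h 0) 2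
  have e10 := congrFun (congrFun h 1) 0
  have e11 := congrFun (congrFun h 1) 1
  have e12 := congrFun (congrFun h 1) 2
  have e20 := congrFun (congrFun h 2) 0
  have e21 := congrFun (congrFun h 2) 1
  have e22 := congrFun (congrFun h 2) 2
  simp at e00 e01 e02 e10 e11 e12 e20 e21 e22
  fin_cases i <;> fin_cases j <;> fin_cases i' <;> fin_cases j' <;> simp <;> linarith

/-- A nonzero matrix with adjugate zero has rank one. -/
lemma rankOne (A : M3) (h0 : A ≠ 0) (h : A.adjugate = 0) :
    ∃ x φ : E, x ≠ 0 ∧ φ ≠ 0 ∧ A = vecMulVec x φ := by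
  obtain ⟨i0, j0, hij⟩ : ∃ i j, A i j ≠ 0 := by
    by_contra hc
    push Not at hc
    exact h0 (by ext i j; exact hc i j)
  refine ⟨fun i => A i j0, fun j => A i0 j / A i0 j0, ?_, ?_, ?_⟩
  · intro hx
    exact hij (congrFun hx i0)
  · intro hφ
    have := congrFun hφ j0
    simp [hij] at this
  · ext i j
    rw [vecMulVec_apply]
    have := minors A h i j i0 j0
    field_simp
    linarith

theorem rk1 : S_rk1 := by
  intro h hh
  set c : ℕ → ℝ := fun n => ‖fun i j => (h n : M3) i j‖ with hc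
  set B : ℕ → (Fin 3 → Fin 3 → ℝ) := fun n => (c n)⁻¹ • fun i j => (h n : M3) i j with hB
  have hpos : ∀ᶠ n in atTop, 0 < c n := hh.eventually_gt_atTop 0
  have hfreq : ∃ᶠ n in atTop, B n ∈ Metric.sphere (0 : Fin 3 → Fin 3 → ℝ) 1 := by
    refine Eventually.frequently ?_
    filter_upwards [hpos] with n hn
    rw [mem_sphere_zero_iff_norm, hB]
    simp only
    rw [norm_smul, norm_inv, Real.norm_eq_abs, abs_of_pos hn]
    exact inv_mul_cancel₀ hn.ne'
  obtain ⟨π, hπ, k, hk, hlim⟩ :=
    (isCompact_sphere (0 : Fin 3 → Fin 3 → ℝ) 1).tendsto_subseq' hfreq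
  have hπ0 : (Matrix.of π : M3) ≠ 0 := by
    intro h0
    have h1 : π = 0 := by
      ext i j
      exact congrFun (congrFun h0 i) j
    rw [h1] at hπ
    simp at hπ
  have hck : Tendsto (fun n => c (k n)) atTop atTop := hh.comp hk.tendsto_atTop
  -- the limit as matrices
  have hlimM : Tendsto (fun n => (c (k n))⁻¹ • (h (k n) : M3)) atTop (𝓝 (Matrix.of π : M3)) := by
    exact hlim
  have hdetlim : Tendsto (fun n => ((c (k n))⁻¹ • (h (k n) : M3)).det) atTop
      (𝓝 (Matrix.of π : M3).det) :=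
    ((continuous_id.matrix_det).tendsto _).comp hlimM
  have hdet0 : Tendsto (fun n => ((c (k n))⁻¹ • (h (k n) : M3)).det) atTop (𝓝 0) := by
    have h1 : (fun n => ((c (k n))⁻¹ • (h (k n) : M3)).det) = fun n => ((c (k n))⁻¹) ^ 3 := by
      funext n
      rw [Matrix.det_smul, Fintype.card_fin, Matrix.SpecialLinearGroup.det_coe, mul_one]
    rw [h1]
    have := (tendsto_inv_atTop_zero.comp hck).pow 3
    simpa using this
  have hdet : (Matrix.of π : M3).det = 0 := tendsto_nhds_unique hdetlim hdet0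
  have hadjlim : Tendsto (fun n => ((c (k n))⁻¹ • (h (k n) : M3)).adjugate) atTop
      (𝓝 (Matrix.of π : M3).adjugate) :=
    ((continuous_id.matrix_adjugate).tendsto _).comp hlimM
  by_cases hadj : (Matrix.of π : M3).adjugate = 0
  · obtain ⟨x, φ, hx, hφ, hxφ⟩ := rankOne _ hπ0 hadj
    refine ⟨k, fun n => c (k n), x, φ, hk, hck, hx, hφ, Or.inl ?_⟩
    rw [← hxφ]
    exact hlimM
  · have hadj2 : ((Matrix.of π : M3).adjugate).adjugate = 0 := by
      rw [Matrix.adjugate_adjugate _ (by simp), hdet]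
      simp
    obtain ⟨x, φ, hx, hφ, hxφ⟩ := rankOne _ hadj hadj2
    refine ⟨k, fun n => c (k n) ^ 2, x, φ, hk, ?_, hx, hφ, Or.inr ?_⟩
    · exact (tendsto_pow_atTop (by norm_num)).comp hck
    · rw [← hxφ]
      have h2 : (fun n => (c (k n) ^ 2)⁻¹ • ((h (k n))⁻¹ : SL3).1) =
          fun n => ((c (k n))⁻¹ • (h (k n) : M3)).adjugate := by
        funext n
        rw [Matrix.adjugate_smul, Fintype.card_fin]
        rw [show ((h (k n))⁻¹ : SL3).1 = (h (k n) : M3).adjugate from
          Matrix.SpecialLinearGroup.coe_inv _]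
        simp
      rw [h2]
      exact hadjlim

end Pool.Agent.Helper47.K3.rk1
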